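import Pool.Agent.H77.SF.Cor1

/-! # [H77 SA Dt2] THEOREM SF, phase 2 (the algorithm), chapter K1: `Dat2` and the auxiliary function

`Dat2` is `Dat` of H77/SF/Dat with independent jets only over the blocks `j / ((r + i - 1) / i) = b'` of one
enumeration `β j` (`j < r`) of the roots. `hind_of2`, `cor1_2`: as `hind_of`, `cor1` in H77/SF/Cor1. -/

namespace Pool.Agent.H77.SA

open Finset Polynomial NumberField Pool.Agent.H77.SF

/-- the numerical data of one bad point, with independent jets only over the blocks of an enumeration of the roots -/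
structure Dat2 (r s m W : ℕ) (A B : ℝ) (p : ℤ[X]) (α : ℝ) (cu cw : ℤ) (π : ℝ) (z : Fin s → ℝ)
    (b : Fin m → Fin s → ℕ → ℤ[X]) (e : ℤ) (Yv : Fin m → ℤ) : Prop where
  r2 : 2 ≤ r
  s1 : 1 ≤ s
  W1 : 1 ≤ W
  A2 : 2 ≤ A
  B1 : 1 ≤ B
  BA : B ≤ A
  mon : p.Monic
  irr : Irreducible p
  deg : p.natDegree = r
  root : aeval α p = 0
  mah : ((p.map (Int.castRingHom ℂ)).roots.map fun β => max 1 ‖β‖).prod ≤ B
  cuB : |(cu : ℝ)| ≤ B
  cw1 : 1 ≤ cw
  cwB : (cw : ℝ) ≤ B
  π0 : 0 < |π|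
  zA : ∀ i, |z i| ≤ A
  bA : ∀ k i u, u < 4 * W → ∀ β : ℂ, aeval β p = 0 → ‖aeval β (b k i u)‖ ≤ A
  e1 : 1 ≤ e
  eA : (e : ℝ) ≤ A
  Y0 : ∃ k, Yv k ≠ 0
  app : ∀ k, |π ^ (2 * W) * ((Yv k : ℝ) / e) -
    ∑ i, ∑ u ∈ range (4 * W), aeval α (b k i u) * z i * π ^ u| ≤ A * |π| ^ (4 * W)
  sur : ∃ β : Fin r → ℂ, Function.Injective β ∧ (∀ j, aeval (β j) p = 0) ∧
    ∀ i, 1 ≤ i → i ≤ 4 → ∀ b' : ℕ, ∀ t : Fin r → Fin s → ℕ → ℂ, ∃ v : Fin m → ℂ,
      ∀ j : Fin r, (j : ℕ) / ((r + i - 1) / i) = b' → ∀ i0, ∀ u < i * W,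
        ∑ k, v k * aeval (β j) (b k i0 u) = t j i0 u

/-- the independence for the number field -/
theorem hind_of2 {r s m W : ℕ} {A B : ℝ} {p : ℤ[X]} {α : ℝ} {cu cw : ℤ} {π : ℝ} {z : Fin s → ℝ}
    {b : Fin m → Fin s → ℕ → ℤ[X]} {e : ℤ} {Yv : Fin m → ℤ}
    (h : Dat2 r s m W A B p α cu cw π z b e Yv) {q : ℕ}
    {K : Type} [Field K] [NumberField K] {θ : 𝓞 K} (hfin : Module.finrank ℚ K = p.natDegree)
    (hθ : aeval θ p = 0)
    (hinj : Function.Injective fun σ : K →+* ℂ => σ (algebraMap (𝓞 K) K θ)) :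
    LinearIndependent ℂ (Sum.elim
      (fun x : (Fin s × (Σ u : Fin (4 * W), Fin (q * (4 * W - (u : ℕ))))) × (K →+* ℂ) =>
        fun t : Fin m × Fin (11 * q * W + (r + 1) * m + 1) =>
          x.2 (algebraMap (𝓞 K) K (((t.2 : ℕ).choose (x.1.2.2 : ℕ) : 𝓞 K) *
            θ ^ ((t.2 : ℕ) - (x.1.2.2 : ℕ)) * aeval θ (b t.1 x.1.1 (x.1.2.1 : ℕ)))))
      (fun b0 : Fin (q * W) => fun t : Fin m × Fin (11 * q * W + (r + 1) * m + 1) =>
        (((t.2 : ℕ).choose (b0 : ℕ) : ℂ) * ((cu : ℂ) ^ ((t.2 : ℕ) - (b0 : ℕ)) *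
          (cw : ℂ) ^ (11 * q * W + (r + 1) * m - ((t.2 : ℕ) - (b0 : ℕ))))) * (Yv t.1 : ℂ))) := by
  classical
  have hcw0 : (cw : ℂ) ≠ 0 := by
    have := h.cw1
    exact_mod_cast (show cw ≠ 0 by omega)
  set c : ℂ := (cu : ℂ) / cw with hcdef
  set β : (K →+* ℂ) → ℂ := fun σ => σ (algebraMap (𝓞 K) K θ) with hβ
  have hroot : ∀ σ, aeval (β σ) p = 0 := by
    intro σ
    have h1 := hom_aeval σ θ p
    rw [hθ, map_zero, map_zero] at h1
    exact h1.symm
  have hcard : Fintype.card (K →+* ℂ) = r := by rw [Embeddings.card, hfin, h.deg]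
  have hr2 := h.r2
  have hW1 := h.W1
  -- the partitions
  obtain ⟨β', hβinj, hβroot, hβsur⟩ := h.sur
  have hex : ∀ σ, ∃ j, β' j = β σ := by
    have hpc : p.map (Int.castRingHom ℂ) ≠ 0 :=
      (Polynomial.map_ne_zero_iff (RingHom.injective_int _)).2 h.mon.ne_zero
    have hmem : ∀ x : ℂ, aeval x p = 0 → x ∈ (p.map (Int.castRingHom ℂ)).roots.toFinset := by
      intro x hx
      rw [Multiset.mem_toFinset, mem_roots hpc, IsRoot.def, eval_map, ← hx, aeval_def]
      rfl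
    have h1 : (univ.image β') ⊆ (p.map (Int.castRingHom ℂ)).roots.toFinset := by
      intro x hx
      obtain ⟨j, _, rfl⟩ := Finset.mem_image.1 hx
      exact hmem _ (hβroot j)
    have h2 : (p.map (Int.castRingHom ℂ)).roots.toFinset.card ≤ (univ.image β').card := by
      rw [Finset.card_image_of_injective _ hβinj, Finset.card_univ, Fintype.card_fin]
      refine (Multiset.toFinset_card_le _).trans ((Polynomial.card_roots' _).trans ?_)
      rw [Polynomial.natDegree_map_eq_of_injective (RingHom.injective_int _), h.deg]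
    have h3 := Finset.eq_of_subset_of_card_le h1 h2
    intro σ
    have h4 := hmem _ (hroot σ)
    rw [← h3] at h4
    obtain ⟨j, _, hj⟩ := Finset.mem_image.1 h4
    exact ⟨j, hj⟩
  choose en0 hen0 using hex
  have hen0i : Function.Injective en0 := by
    intro σ σ' hσ
    refine hinj ?_
    show β σ = β σ'
    rw [← hen0 σ, ← hen0 σ', hσ]
  have hen0b : Function.Bijective en0 :=
    (Fintype.bijective_iff_injective_and_card en0).2 ⟨hen0i, by rw [hcard, Fintype.card_fin]⟩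
  set en : (K →+* ℂ) ≃ Fin r := Equiv.ofBijective en0 hen0b with hen
  have hβen : ∀ σ, β' (en σ) = β σ := hen0
  set sz : ℕ → ℕ := fun i => (r + i - 1) / i with hsz
  have hsz1 : ∀ i, 1 ≤ i → r ≤ i * sz i ∧ i * sz i ≤ r + i - 1 ∧ 1 ≤ sz i := by
    intro i hi
    have h1 := Nat.div_add_mod (r + i - 1) i
    have h2 := Nat.mod_lt (r + i - 1) (show 0 < i by omega)
    have h3 : 1 ≤ sz i := by
      simp only [hsz]
      exact (Nat.one_le_div_iff (by omega)).2 (by omega)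
    refine ⟨?_, ?_, h3⟩
    · simp only [hsz]
      omega
    · simp only [hsz]
      omega
  set lam : (K →+* ℂ) → Fin s → ℕ → ((Fin m → ℂ) →ₗ[ℂ] ℂ) := fun σ i u =>
    ∑ k, (aeval (β σ) (b k i u)) • LinearMap.proj k with hlam
  have hlama : ∀ σ i u φ, lam σ i u φ = ∑ k, aeval (β σ) (b k i u) * φ k := by
    intro σ i u φ
    simp only [hlam, LinearMap.sum_apply, LinearMap.smul_apply, LinearMap.proj_apply, smul_eq_mul]
  set w : (Fin m → ℂ) →ₗ[ℂ] ℂ := ∑ k, (Yv k : ℂ) • LinearMap.proj k with hw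
  have hwa : ∀ φ, w φ = ∑ k, (Yv k : ℂ) * φ k := by
    intro φ
    simp only [hw, LinearMap.sum_apply, LinearMap.smul_apply, LinearMap.proj_apply, smul_eq_mul]
  have hw0 : w ≠ 0 := by
    obtain ⟨k, hk⟩ := h.Y0
    intro h0
    have h1 : w (Pi.single k 1) = 0 := by rw [h0]; rfl
    rw [hwa, Finset.sum_eq_single k] at h1
    · rw [Pi.single_eq_same, mul_one] at h1
      exact hk (by exact_mod_cast h1)
    · intro j _ hj
      rw [Pi.single_eq_of_ne hj, mul_zero]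
    · intro hn
      exact absurd (mem_univ k) hn
  have hs : ∀ u < 4 * W, ∀ σ : K →+* ℂ, (en σ : ℕ) / sz (u / W + 1) < u / W + 1 := by
    intro u _ σ
    obtain ⟨h1, _, h3⟩ := hsz1 (u / W + 1) (Nat.succ_pos _)
    rw [Nat.div_lt_iff_lt_mul (by omega)]
    exact lt_of_lt_of_le (en σ).2 h1
  have hJ : ∀ u < 4 * W, ∀ b', Function.Surjective (fun φ : Fin m → ℂ =>
      fun t : {σ // (en σ : ℕ) / sz (u / W + 1) = b'} × Fin s × Fin (u + 1) =>
        lam t.1 t.2.1 t.2.2 φ) := by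
    intro u hu b' T
    have hi4 : u / W + 1 ≤ 4 := by
      have : u / W < 4 := (Nat.div_lt_iff_lt_mul (by omega)).2 (by omega)
      omega
    have hiW : u < (u / W + 1) * W := by
      have h1 := Nat.div_add_mod u W
      have h2 := Nat.mod_lt u (show 0 < W by omega)
      rw [Nat.add_mul, one_mul, mul_comm]
      omega
    obtain ⟨_, hsz2, hsz3⟩ := hsz1 (u / W + 1) (Nat.succ_pos _)
    obtain ⟨v, hv⟩ := hβsur (u / W + 1) (Nat.succ_pos _) hi4 b' (fun j i u' =>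
      if hj : (j : ℕ) / sz (u / W + 1) = b' then
        if hu' : u' < u + 1 then
          T (⟨en.symm j, by rw [Equiv.apply_symm_apply]; exact hj⟩, i, ⟨u', hu'⟩) else 0 else 0)
    refine ⟨v, ?_⟩
    funext t
    have h1 := hv (en t.1) t.1.2 t.2.1 t.2.2 (by omega)
    rw [dif_pos t.1.2, dif_pos t.2.2.2, hβen] at h1
    have h2 : (⟨en.symm (en (t.1 : K →+* ℂ)), by
        rw [Equiv.apply_symm_apply]; exact t.1.2⟩ :
        {σ // (en σ : ℕ) / sz (u / W + 1) = b'}) = t.1 :=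
      Subtype.ext (Equiv.symm_apply_apply en _)
    rw [h2] at h1
    simp only [hlama]
    rw [← show T (t.1, t.2.1, ⟨(t.2.2 : ℕ), t.2.2.2⟩) = T t from rfl, ← h1]
    exact Finset.sum_congr rfl fun k _ => mul_comm _ _
  -- c is not a root
  have hc : ∀ σ, β σ ≠ c := by
    intro σ hσ
    have h1 : aeval c p = 0 := by rw [← hσ]; exact hroot σ
    obtain ⟨n, hn⟩ : ∃ n : ℤ, c = (n : ℂ) := by
      have h2 : IsIntegral ℤ ((cu : ℚ) / cw) := by
        refine ⟨p, h.mon, ?_⟩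
        have h3 : algebraMap ℚ ℂ (aeval ((cu : ℚ) / cw) p) = 0 := by
          rw [← Polynomial.aeval_algebraMap_apply ℂ ((cu : ℚ) / cw) p, ← h1]
          congr 1
          rw [hcdef]
          simp
        rw [← aeval_def]
        exact (FaithfulSMul.algebraMap_injective ℚ ℂ) (by rw [h3, map_zero])
      obtain ⟨n, hn⟩ := IsIntegrallyClosed.isIntegral_iff.1 h2
      refine ⟨n, ?_⟩
      have h4 := congrArg (fun x : ℚ => (x : ℂ)) hn
      simp only [eq_intCast, Rat.cast_intCast, Rat.cast_div] at h4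
      rw [hcdef, h4]
    rw [hn] at h1
    have h2 : p.eval n = 0 := by
      have h3 : aeval ((n : ℤ) : ℂ) p = ((p.eval n : ℤ) : ℂ) := by
        have := Polynomial.aeval_algebraMap_apply ℂ n p
        simpa using this
      rw [h3] at h1
      exact_mod_cast h1
    obtain ⟨g, hg⟩ := (Polynomial.dvd_iff_isRoot (p := p) (a := n)).2 h2
    have hp0 : p ≠ 0 := h.mon.ne_zero
    rcases h.irr.isUnit_or_isUnit hg with hu | hu
    · exact Polynomial.not_isUnit_X_sub_C n hu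
    · have h4 : p.natDegree = 1 := by
        rw [hg, Polynomial.natDegree_mul (X_sub_C_ne_zero n) hu.ne_zero, natDegree_X_sub_C,
          Polynomial.natDegree_eq_zero_of_isUnit hu]
      have h5 := h.deg
      have h6 := h.r2
      omega
  rw [Fintype.linearIndependent_iff]
  intro g hg
  set a : (K →+* ℂ) → Fin s → ℕ → ℕ → ℂ := fun σ i u t =>
    if hh : u < 4 * W ∧ t < q * (4 * W - u) then
      g (Sum.inl ((i, ⟨⟨u, hh.1⟩, ⟨t, hh.2⟩⟩), σ)) else 0 with ha
  set a' : ℕ → ℂ := fun b0 => if hh : b0 < q * W then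
    g (Sum.inr ⟨b0, hh⟩) * (cw : ℂ) ^ (11 * q * W + (r + 1) * m) else 0 with ha'
  have hk : ∀ (k : Fin m) (l : ℕ), l ≤ 11 * q * W + (r + 1) * m →
      ∑ σ, ∑ i, ∑ u ∈ range (4 * W), ∑ t ∈ range (q * (4 * W - u)),
        a σ i u t * ((l.choose t : ℂ) * β σ ^ (l - t)) * aeval (β σ) (b k i u) +
      ∑ b0 ∈ range (q * W), a' b0 * ((l.choose b0 : ℂ) * c ^ (l - b0)) * (Yv k : ℂ)
        = 0 := by
    intro k l hl
    have h1 := congrFun hg (k, ⟨l, Nat.lt_succ_of_le hl⟩)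
    simp only [Finset.sum_apply, Pi.smul_apply, smul_eq_mul, Pi.zero_apply, Fintype.sum_sum_type,
      Sum.elim_inl, Sum.elim_inr] at h1
    rw [← h1]
    congr 1
    · rw [Fintype.sum_prod_type_right]
      refine Finset.sum_congr rfl fun σ _ => ?_
      rw [Fintype.sum_prod_type]
      refine Finset.sum_congr rfl fun i _ => ?_
      rw [Finset.sum_range, Fintype.sum_sigma]
      refine Finset.sum_congr rfl fun u _ => ?_
      rw [Finset.sum_range]
      refine Finset.sum_congr rfl fun t _ => ?_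
      simp only [ha, dif_pos (And.intro u.2 t.2), Fin.eta, map_mul, map_natCast, map_pow,
        hom_aeval]
      ring
    · rw [Finset.sum_range]
      refine Finset.sum_congr rfl fun b0 _ => ?_
      simp only [ha', dif_pos b0.2, Fin.eta]
      have h2 : (cw : ℂ) ^ (11 * q * W + (r + 1) * m) * c ^ (l - (b0 : ℕ)) =
          (cu : ℂ) ^ (l - (b0 : ℕ)) *
            (cw : ℂ) ^ (11 * q * W + (r + 1) * m - (l - (b0 : ℕ))) := by
        have h3 : 11 * q * W + (r + 1) * m =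
            (11 * q * W + (r + 1) * m - (l - (b0 : ℕ))) + (l - (b0 : ℕ)) := by omega
        have h4 : (cw : ℂ) ^ (11 * q * W + (r + 1) * m) =
            (cw : ℂ) ^ (11 * q * W + (r + 1) * m - (l - (b0 : ℕ))) * (cw : ℂ) ^ (l - (b0 : ℕ)) := by
          rw [← pow_add, ← h3]
        rw [h4, hcdef, div_pow]
        field_simp
      calc g (Sum.inr b0) * (cw : ℂ) ^ (11 * q * W + (r + 1) * m) *
            ((l.choose (b0 : ℕ) : ℂ) * c ^ (l - (b0 : ℕ))) * (Yv k : ℂ)
          = g (Sum.inr b0) * ((l.choose (b0 : ℕ) : ℂ) *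
            ((cw : ℂ) ^ (11 * q * W + (r + 1) * m) * c ^ (l - (b0 : ℕ)))) * (Yv k : ℂ) := by ring
        _ = _ := by rw [h2]; ring
  have hind := indep (α := β) hinj (c := c) hc (M := 4 * W) (by omega) lam (fun u => u / W + 1)
    (fun u σ => (en σ : ℕ) / sz (u / W + 1)) hs hJ hw0
    (v := fun u => q * (4 * W - u))
    (fun u u' huu => Nat.mul_le_mul_left _ (Nat.sub_le_sub_left huu _)) (by simp) (q * W)
    (11 * q * W + (r + 1) * m)
    (by
      rw [hcard, Module.finrank_fintype_fun_eq_card, Fintype.card_fin, sum_kap q W hW1]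
      nlinarith) a a' (by
      intro φ l hl
      have h1 : ∑ k, φ k * (∑ σ, ∑ i, ∑ u ∈ range (4 * W), ∑ t ∈ range (q * (4 * W - u)),
          a σ i u t * ((l.choose t : ℂ) * β σ ^ (l - t)) * aeval (β σ) (b k i u) +
          ∑ b0 ∈ range (q * W), a' b0 * ((l.choose b0 : ℂ) * c ^ (l - b0)) *
            (Yv k : ℂ)) = 0 :=
        Finset.sum_eq_zero fun k _ => by rw [hk k l hl, mul_zero]
      rw [← h1]
      simp only [mul_add, Finset.sum_add_distrib]
      congr 1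
      · simp only [hlama, Finset.mul_sum]
        symm
        rw [Finset.sum_comm]
        refine Finset.sum_congr rfl fun σ _ => ?_
        rw [Finset.sum_comm]
        refine Finset.sum_congr rfl fun i _ => ?_
        rw [Finset.sum_comm]
        refine Finset.sum_congr rfl fun u _ => ?_
        rw [Finset.sum_comm]
        refine Finset.sum_congr rfl fun t _ => Finset.sum_congr rfl fun k _ => ?_
        ring
      · simp only [hwa, Finset.mul_sum]
        symm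
        rw [Finset.sum_comm]
        refine Finset.sum_congr rfl fun b0 _ => Finset.sum_congr rfl fun k _ => ?_
        ring)
  rintro (⟨⟨i, ⟨u, t⟩⟩, σ⟩ | b0)
  · have h1 := hind.1 σ i u u.2 t t.2
    simp only [ha, dif_pos (And.intro u.2 t.2), Fin.eta] at h1
    exact h1
  · have h1 := hind.2 b0 b0.2
    simp only [ha', dif_pos b0.2, Fin.eta] at h1
    exact (mul_eq_zero.1 h1).resolve_right (pow_ne_zero _ hcw0)

/-- the auxiliary function -/
theorem cor1_2 {r s m W : ℕ} {A B : ℝ} {p : ℤ[X]} {α : ℝ} {cu cw : ℤ} {π : ℝ} {z : Fin s → ℝ}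
    {b : Fin m → Fin s → ℕ → ℤ[X]} {e : ℤ} {Yv : Fin m → ℤ}
    (h : Dat2 r s m W A B p α cu cw π z b e Yv) {q : ℕ} (hq : 1 ≤ q) {Y : ℕ} (hY1 : 1 ≤ Y)
    (hY : ((4 * (nn r s W q : ℝ) * A) ^ r * (2 ^ r * B) ^ dd r m W q) ^ (2 * s * (4 * W + 1)) ≤
      (Y : ℝ)) :
    ∃ y : Fin m → ℕ → ℤ, (∀ k l, |y k l| ≤ Y) ∧
      (∀ i, ∀ u < 4 * W, ∀ t < q * (4 * W - u),
        ∑ k, ∑ l ∈ range (dd r m W q + 1),
          (y k l : ℝ) * ((l.choose t : ℝ) * α ^ (l - t)) * aeval α (b k i u) = 0) ∧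
      ∃ b0 < q * W, ∑ k, ∑ l ∈ range (dd r m W q + 1),
        y k l * ((l.choose b0 : ℤ) * (cu ^ (l - b0) * cw ^ (dd r m W q - (l - b0)))) * Yv k ≠ 0 := by
  classical
  obtain ⟨K, _, _, θ, hfin, hθ, hinj, hreal⟩ := field_data h.mon h.irr
  have hind := hind_of2 h (q := q) hfin hθ hinj
  have hroot : ∀ σ : K →+* ℂ, aeval (σ (algebraMap (𝓞 K) K θ)) p = 0 := by
    intro σ
    have h1 := hom_aeval σ θ p
    rw [hθ, map_zero, map_zero] at h1
    exact h1.symm
  have hfin' : Module.finrank ℚ K = r := by rw [hfin, h.deg]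
  have hcardσ : Fintype.card (K →+* ℂ) = r := by rw [Embeddings.card, hfin']
  have hA1 : 1 ≤ A := by linarith [h.A2]
  set d := dd r m W q with hd
  have hcardC : Fintype.card (Fin s × (Σ u : Fin (4 * W), Fin (q * (4 * W - (u : ℕ))))) =
      s * (2 * q * W * (4 * W + 1)) := by
    rw [Fintype.card_prod, Fintype.card_fin, Fintype.card_sigma]
    simp only [Fintype.card_fin]
    rw [sum_v]
  have hN : Module.finrank ℚ K *
      Fintype.card (Fin s × (Σ u : Fin (4 * W), Fin (q * (4 * W - (u : ℕ))))) +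
        q * W = nn r s W q := by rw [hfin', hcardC, nn]
  obtain ⟨y0, hy1, hy2, b0, hb0⟩ := siegel_emb
    (fun (x : Fin s × (Σ u : Fin (4 * W), Fin (q * (4 * W - (u : ℕ)))))
      (t : Fin m × Fin (d + 1)) =>
      ((t.2 : ℕ).choose (x.2.2 : ℕ) : 𝓞 K) * θ ^ ((t.2 : ℕ) - (x.2.2 : ℕ)) *
        aeval θ (b t.1 x.1 (x.2.1 : ℕ)))
    (B := q * W) (Nat.mul_pos hq h.W1)
    (fun b0 t => (((t.2 : ℕ).choose (b0 : ℕ) : ℂ) * ((cu : ℂ) ^ ((t.2 : ℕ) - (b0 : ℕ)) *
      (cw : ℂ) ^ (d - ((t.2 : ℕ) - (b0 : ℕ))))) * (Yv t.1 : ℂ)) hind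
    (fun σ => A * 2 ^ d * (max 1 ‖σ (algebraMap (𝓞 K) K θ)‖) ^ d)
    (fun σ => by
      have h1 : (1 : ℝ) ≤ 2 ^ d := one_le_pow₀ (by norm_num)
      have h2 : (1 : ℝ) ≤ (max 1 ‖σ (algebraMap (𝓞 K) K θ)‖) ^ d := one_le_pow₀ (le_max_left _ _)
      exact one_le_mul_of_one_le_of_one_le (one_le_mul_of_one_le_of_one_le hA1 h1) h2)
    (fun σ x t => by
      simp only [map_mul, map_pow, map_natCast, hom_aeval, norm_mul, norm_pow,
        Complex.norm_natCast]
      have h1 : ((t.2 : ℕ).choose (x.2.2 : ℕ) : ℝ) ≤ 2 ^ d := by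
        have h3 : (t.2 : ℕ).choose (x.2.2 : ℕ) ≤ 2 ^ d :=
          (Nat.choose_le_two_pow _ _).trans (Nat.pow_le_pow_right (by norm_num) (by omega))
        exact_mod_cast h3
      have h2 : ‖σ (algebraMap (𝓞 K) K θ)‖ ^ ((t.2 : ℕ) - (x.2.2 : ℕ)) ≤
          (max 1 ‖σ (algebraMap (𝓞 K) K θ)‖) ^ d :=
        (pow_le_pow_left₀ (norm_nonneg _) (le_max_right _ _) _).trans
          (pow_le_pow_right₀ (le_max_left _ _) (by omega))
      have h3 := h.bA t.1 x.1 x.2.1 x.2.1.2 _ (hroot σ)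
      calc ((t.2 : ℕ).choose (x.2.2 : ℕ) : ℝ) *
            ‖σ (algebraMap (𝓞 K) K θ)‖ ^ ((t.2 : ℕ) - (x.2.2 : ℕ)) *
            ‖aeval (σ (algebraMap (𝓞 K) K θ)) (b t.1 x.1 (x.2.1 : ℕ))‖
          ≤ 2 ^ d * (max 1 ‖σ (algebraMap (𝓞 K) K θ)‖) ^ d * A :=
            mul_le_mul (mul_le_mul h1 h2 (by positivity) (by positivity)) h3 (norm_nonneg _)
              (by positivity)
        _ = A * 2 ^ d * (max 1 ‖σ (algebraMap (𝓞 K) K θ)‖) ^ d := by ring)
    hY1 (by
      rw [hN, hcardC]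
      have h1 : ∏ σ : K →+* ℂ, (4 * (nn r s W q : ℝ) *
          (A * 2 ^ d * (max 1 ‖σ (algebraMap (𝓞 K) K θ)‖) ^ d)) ≤
          (4 * (nn r s W q : ℝ) * A) ^ r * (2 ^ r * B) ^ d := by
        have h2 : ∏ σ : K →+* ℂ, (4 * (nn r s W q : ℝ) *
            (A * 2 ^ d * (max 1 ‖σ (algebraMap (𝓞 K) K θ)‖) ^ d)) =
            (4 * (nn r s W q : ℝ) * A * 2 ^ d) ^ r *
              (∏ σ : K →+* ℂ, max 1 ‖σ (algebraMap (𝓞 K) K θ)‖) ^ d := by
          rw [← Finset.prod_pow, ← hcardσ, ← Finset.card_univ, ← Finset.prod_const,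
            ← Finset.prod_mul_distrib]
          refine Finset.prod_congr rfl fun σ _ => ?_
          ring
        rw [h2]
        have h3 : (∏ σ : K →+* ℂ, max 1 ‖σ (algebraMap (𝓞 K) K θ)‖) ≤ B :=
          (prod_le_mah h.mon.ne_zero _ hinj hroot).trans h.mah
        have h4 : (0 : ℝ) ≤ ∏ σ : K →+* ℂ, max 1 ‖σ (algebraMap (𝓞 K) K θ)‖ :=
          Finset.prod_nonneg fun σ _ => by positivity
        calc (4 * (nn r s W q : ℝ) * A * 2 ^ d) ^ r *
              (∏ σ : K →+* ℂ, max 1 ‖σ (algebraMap (𝓞 K) K θ)‖) ^ d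
            ≤ (4 * (nn r s W q : ℝ) * A * 2 ^ d) ^ r * B ^ d :=
              mul_le_mul_of_nonneg_left (pow_le_pow_left₀ h4 h3 _) (by positivity)
          _ = (4 * (nn r s W q : ℝ) * A) ^ r * (2 ^ r * B) ^ d := by
              rw [mul_pow (2 ^ r), mul_pow (4 * (nn r s W q : ℝ) * A), ← pow_mul, ← pow_mul,
                mul_comm d r]
              ring
      have h5 : s * (2 * q * W * (4 * W + 1)) = (2 * s * (4 * W + 1)) * (q * W) := by ring
      have h6 : 0 ≤ ∏ σ : K →+* ℂ, (4 * (nn r s W q : ℝ) *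
          (A * 2 ^ d * (max 1 ‖σ (algebraMap (𝓞 K) K θ)‖) ^ d)) :=
        Finset.prod_nonneg fun σ _ => by positivity
      rw [h5, pow_mul]
      exact pow_le_pow_left₀ (pow_nonneg h6 _) ((pow_le_pow_left₀ h6 h1 _).trans hY) _)
  refine ⟨fun k l => if hl : l < d + 1 then y0 (k, ⟨l, hl⟩) else 0, ?_, ?_, b0, b0.2, ?_⟩
  · intro k l
    by_cases hl : l < d + 1
    · simp only [dif_pos hl]
      exact hy1 _
    · simp only [dif_neg hl, abs_zero]
      positivity
  · intro i u hu t ht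
    obtain ⟨φ, hφ⟩ := hreal α h.root
    have h1 := congrArg (fun x => φ (algebraMap (𝓞 K) K x)) (hy2 (i, ⟨⟨u, hu⟩, ⟨t, ht⟩⟩))
    simp only [map_sum, map_mul, map_zero, map_intCast, map_natCast, map_pow, hom_aeval, hφ] at h1
    rw [Fintype.sum_prod_type] at h1
    refine Eq.trans (Finset.sum_congr rfl fun k _ => ?_) h1
    rw [Finset.sum_range]
    refine Finset.sum_congr rfl fun l _ => ?_
    simp only [dif_pos l.2, Fin.eta]
    ring
  · intro h0
    refine hb0 ?_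
    have h1 := congrArg (fun x : ℤ => (x : ℂ)) h0
    simp only [Int.cast_sum, Int.cast_mul, Int.cast_natCast, Int.cast_pow, Int.cast_zero] at h1
    rw [Fintype.sum_prod_type]
    refine Eq.trans (Finset.sum_congr rfl fun k _ => ?_) h1
    rw [Finset.sum_range]
    refine Finset.sum_congr rfl fun l _ => ?_
    simp only [dif_pos l.2, Fin.eta]
    ring

end Pool.Agent.H77.SA
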