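import Pool.Agent.H77.SF.Core
import Pool.Agent.H77.SA.Dt2

/-! # [H77 SA Co2] THEOREM SF, phase 2 (the algorithm), chapter K1: `core2`

`Dat2` is impossible if `|pi| A^(E0 r s m W) ≤ 1` and `|α - cu/cw| (2^r B)^((88 W + 46) s) ≤ 1` (as `core` in
H77/SF/Core); `E0_mono`: `E0` is monotone. -/

namespace Pool.Agent.H77.SA

open Finset Polynomial Pool.Agent.H77.SF

theorem kp_mono {s s' W W' : ℕ} (hs : s ≤ s') (hW : W ≤ W') : kp s W ≤ kp s' W' := by
  unfold kp
  gcongr

theorem kk_mono {s s' W W' : ℕ} (hs : s ≤ s') (hW : W ≤ W') : kk s W ≤ kk s' W' := by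
  unfold kk
  gcongr

/-- `E0` is monotone -/
theorem E0_mono {r r' s s' m m' W W' : ℕ} (hr : r ≤ r') (hs : s ≤ s') (hm : m ≤ m')
    (hW : W ≤ W') : E0 r s m W ≤ E0 r' s' m' W' := by
  have h1 := kp_mono hs hW
  have h2 := kk_mono hs hW
  have h3 : N0 r s W ≤ N0 r' s' W' := by
    unfold N0
    gcongr
  have h4 : c1 r s m W ≤ c1 r' s' m' W' := by
    unfold c1
    gcongr
  have h5 : c3 r s m W ≤ c3 r' s' m' W' := by
    unfold c3
    gcongr
  unfold E0
  gcongr

/-- `|α| ≤ B` -/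
theorem alpha_le2 {r s m W : ℕ} {A B : ℝ} {p : ℤ[X]} {α : ℝ} {cu cw : ℤ} {π : ℝ} {z : Fin s → ℝ}
    {b : Fin m → Fin s → ℕ → ℤ[X]} {e : ℤ} {Yv : Fin m → ℤ}
    (h : Dat2 r s m W A B p α cu cw π z b e Yv) : |α| ≤ B := by
  have h1 : (α : ℂ) ∈ (p.map (Int.castRingHom ℂ)).roots := by
    have hpc : p.map (Int.castRingHom ℂ) ≠ 0 :=
      (Polynomial.map_ne_zero_iff (RingHom.injective_int _)).2 h.mon.ne_zero
    rw [mem_roots hpc, IsRoot.def, eval_map]
    have h2 : aeval ((algebraMap ℝ ℂ) α) p = 0 := by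
      rw [Polynomial.aeval_algebraMap_apply, h.root, map_zero]
    rw [aeval_def] at h2
    exact h2
  obtain ⟨R, hR⟩ := Multiset.exists_cons_of_mem h1
  have h3 : ∀ R : Multiset ℂ, 1 ≤ (R.map fun β : ℂ => max 1 ‖β‖).prod := by
    intro R
    induction R using Multiset.induction_on with
    | empty => simp
    | cons a R ih =>
      rw [Multiset.map_cons, Multiset.prod_cons]
      exact one_le_mul_of_one_le_of_one_le (le_max_left _ _) ih
  have h4 := h.mah
  rw [hR, Multiset.map_cons, Multiset.prod_cons] at h4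
  calc |α| = ‖(α : ℂ)‖ := by rw [Complex.norm_real, Real.norm_eq_abs]
    _ ≤ max 1 ‖(α : ℂ)‖ := le_max_right _ _
    _ ≤ max 1 ‖(α : ℂ)‖ * (R.map fun β : ℂ => max 1 ‖β‖).prod :=
        le_mul_of_one_le_right (by positivity) (h3 R)
    _ ≤ B := h4

/-- **STEP 3.** -/
theorem size2 {r s m W : ℕ} {A B : ℝ} {p : ℤ[X]} {α : ℝ} {cu cw : ℤ} {π : ℝ} {z : Fin s → ℝ}
    {b : Fin m → Fin s → ℕ → ℤ[X]} {e : ℤ} {Yv : Fin m → ℤ}
    (h : Dat2 r s m W A B p α cu cw π z b e Yv) (hδ : |(cu : ℝ) / cw - α| ≤ 1) {Y d b0 : ℕ}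
    {v : ℕ → ℕ} {y : Fin m → ℕ → ℤ} (hy : ∀ k l, |y k l| ≤ Y)
    (hv : ∀ i, ∀ u < 4 * W, ∀ t < v u, ∑ k, ∑ l ∈ range (d + 1),
      (y k l : ℝ) * ((l.choose t : ℝ) * α ^ (l - t)) * aeval α (b k i u) = 0)
    (hne : ∑ k, ∑ l ∈ range (d + 1),
      y k l * ((l.choose b0 : ℤ) * (cu ^ (l - b0) * cw ^ (d - (l - b0)))) * Yv k ≠ 0) :
    |π| ^ (2 * W) ≤ A ^ 3 * m * ((d : ℝ) + 1) ^ 2 * (4 * B ^ 2) ^ d * Y *
      (|π| ^ (4 * W) + ∑ _i : Fin s, ∑ u ∈ range (4 * W),
        |π| ^ u * |(cu : ℝ) / cw - α| ^ (v u - b0)) := by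
  have hB1 := h.B1
  have hA1 : 1 ≤ A := by linarith [h.A2]
  have hcw : (0 : ℝ) < cw := by
    have := h.cw1
    exact_mod_cast (show 0 < cw by omega)
  have hcw1 : (1 : ℝ) ≤ cw := by exact_mod_cast h.cw1
  have he : (0 : ℝ) < e := by
    have := h.e1
    exact_mod_cast (show 0 < e by omega)
  set c : ℝ := (cu : ℝ) / cw with hc
  have hcB : |c| ≤ B := by
    rw [hc, abs_div, abs_of_pos hcw, div_le_iff₀ hcw]
    nlinarith [h.cuB]
  have hYr : ∀ k l, |(y k l : ℝ)| ≤ Y := fun k l => by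
    have := hy k l
    exact_mod_cast this
  have hY0 : (0 : ℝ) ≤ Y := by positivity
  set Sk : Fin m → ℝ := fun k => ∑ l ∈ range (d + 1), (y k l : ℝ) * ((l.choose b0 : ℝ) *
    c ^ (l - b0)) with hSk
  -- size of Sk
  have hSkb : ∀ k, |Sk k| ≤ ((d : ℝ) + 1) ^ 2 * (4 * B) ^ d * Y := by
    intro k
    refine (Finset.abs_sum_le_sum_abs _ _).trans ?_
    refine (Finset.sum_le_card_nsmul _ _ (Y * (2 ^ d * B ^ d)) fun l hl => ?_).trans ?_
    · rw [Finset.mem_range] at hl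
      rw [abs_mul, abs_mul, abs_pow, Nat.abs_cast]
      refine mul_le_mul (hYr k l) ?_ (by positivity) hY0
      refine mul_le_mul ?_ ?_ (by positivity) (by positivity)
      · have h3 : l.choose b0 ≤ 2 ^ d :=
          (Nat.choose_le_two_pow _ _).trans (Nat.pow_le_pow_right (by norm_num) (by omega))
        exact_mod_cast h3
      · exact (pow_le_pow_left₀ (abs_nonneg _) hcB _).trans (pow_le_pow_right₀ hB1 (by omega))
    · rw [Finset.card_range, nsmul_eq_mul]
      push_cast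
      have h5 : (2 : ℝ) ^ d * B ^ d ≤ (4 * B) ^ d := by
        rw [mul_pow]
        exact mul_le_mul_of_nonneg_right (pow_le_pow_left₀ (by norm_num) (by norm_num) _)
          (by positivity)
      have h6 : ((d : ℝ) + 1) ≤ ((d : ℝ) + 1) ^ 2 := by
        have : (0 : ℝ) ≤ d := by positivity
        nlinarith
      calc ((d : ℝ) + 1) * (Y * (2 ^ d * B ^ d)) ≤ ((d : ℝ) + 1) ^ 2 * (Y * (4 * B) ^ d) :=
            mul_le_mul h6 (mul_le_mul_of_nonneg_left h5 hY0) (by positivity) (by positivity)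
        _ = _ := by ring
  -- size of the G
  set Gu : Fin s → ℕ → ℝ := fun i u => ∑ k, aeval α (b k i u) * Sk k with hGu
  have haα : ∀ k i u, u < 4 * W → |aeval α (b k i u)| ≤ A := by
    intro k i u hu
    have h1 : aeval ((algebraMap ℝ ℂ) α) p = 0 := by
      rw [Polynomial.aeval_algebraMap_apply, h.root, map_zero]
    have h2 := h.bA k i u hu _ h1
    rw [Polynomial.aeval_algebraMap_apply] at h2
    have h3 : ‖(algebraMap ℝ ℂ) (aeval α (b k i u))‖ = |aeval α (b k i u)| := by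
      rw [Complex.coe_algebraMap, Complex.norm_real, Real.norm_eq_abs]
    rwa [h3] at h2
  have hGb : ∀ i, ∀ u < 4 * W, |Gu i u| ≤
      ((d : ℝ) + 1) ^ 2 * (4 * B) ^ d * (m * (Y * A)) * |c - α| ^ (v u - b0) := by
    intro i u hu
    have h1 : Gu i u = ∑ l ∈ range (d + 1), (∑ k, (y k l : ℝ) * aeval α (b k i u)) *
        ((l.choose b0 : ℝ) * c ^ (l - b0)) := by
      simp only [hGu, hSk, Finset.mul_sum, Finset.sum_mul]
      rw [Finset.sum_comm]
      refine Finset.sum_congr rfl fun l _ => Finset.sum_congr rfl fun k _ => ?_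
      ring
    rw [h1]
    refine tay_bound hB1 (alpha_le2 h) hδ _ (fun l => ?_) d b0 (v u) fun t ht => ?_
    · refine (Finset.abs_sum_le_sum_abs _ _).trans ?_
      refine (Finset.sum_le_card_nsmul _ _ (Y * A) fun k _ => ?_).trans ?_
      · rw [abs_mul]
        exact mul_le_mul (hYr k l) (haα k i u hu) (abs_nonneg _) hY0
      · rw [Finset.card_univ, Fintype.card_fin, nsmul_eq_mul]
    · rw [← hv i u hu t ht, Finset.sum_comm]
      refine Finset.sum_congr rfl fun l _ => ?_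
      rw [Finset.sum_mul]
      refine Finset.sum_congr rfl fun k _ => ?_
      ring
  -- the integer
  set Z : ℤ := ∑ k, ∑ l ∈ range (d + 1),
    y k l * ((l.choose b0 : ℤ) * (cu ^ (l - b0) * cw ^ (d - (l - b0)))) * Yv k with hZ
  set Wv : ℝ := ∑ k, Sk k * ((Yv k : ℝ) / e) with hW
  have hZW : (Z : ℝ) = e * (cw : ℝ) ^ d * Wv := by
    rw [hZ, hW]
    push_cast
    rw [Finset.mul_sum]
    refine Finset.sum_congr rfl fun k _ => ?_
    have h1 : (e : ℝ) * (cw : ℝ) ^ d * (Sk k * ((Yv k : ℝ) / e)) =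
        ((cw : ℝ) ^ d * Sk k) * Yv k := by
      field_simp
    rw [h1, hSk, Finset.mul_sum, Finset.sum_mul]
    refine Finset.sum_congr rfl fun l hl => ?_
    rw [Finset.mem_range] at hl
    have h2 : (cw : ℝ) ^ d * c ^ (l - b0) = (cu : ℝ) ^ (l - b0) * (cw : ℝ) ^ (d - (l - b0)) := by
      have h3 : d = (d - (l - b0)) + (l - b0) := by omega
      have h4 : (cw : ℝ) ^ d = (cw : ℝ) ^ (d - (l - b0)) * (cw : ℝ) ^ (l - b0) := by
        rw [← pow_add, ← h3]
      rw [h4, hc, div_pow]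
      field_simp
    calc (y k l : ℝ) * ((l.choose b0 : ℝ) * ((cu : ℝ) ^ (l - b0) * (cw : ℝ) ^ (d - (l - b0)))) *
          (Yv k : ℝ) = (y k l : ℝ) * ((l.choose b0 : ℝ) * ((cw : ℝ) ^ d * c ^ (l - b0))) *
            (Yv k : ℝ) := by rw [h2]
      _ = _ := by ring
  have hZ1 : (1 : ℝ) ≤ |(Z : ℝ)| := by
    have := Int.one_le_abs hne
    exact_mod_cast this
  -- the estimate of pi^(2W) Wv
  have hWb : |π ^ (2 * W) * Wv| ≤ ((d : ℝ) + 1) ^ 2 * (4 * B) ^ d * (m * Y) * A ^ 2 *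
      (|π| ^ (4 * W) + ∑ _i : Fin s, ∑ u ∈ range (4 * W), |π| ^ u * |c - α| ^ (v u - b0)) := by
    have h1 : π ^ (2 * W) * Wv = ∑ k, Sk k * (π ^ (2 * W) * ((Yv k : ℝ) / e) -
        ∑ i, ∑ u ∈ range (4 * W), aeval α (b k i u) * z i * π ^ u) +
        ∑ i, ∑ u ∈ range (4 * W), z i * π ^ u * Gu i u := by
      have h2 : ∑ i, ∑ u ∈ range (4 * W), z i * π ^ u * Gu i u =
          ∑ k, Sk k * ∑ i, ∑ u ∈ range (4 * W), aeval α (b k i u) * z i * π ^ u := by
        simp only [hGu, Finset.mul_sum]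
        symm
        rw [Finset.sum_comm]
        refine Finset.sum_congr rfl fun i _ => ?_
        rw [Finset.sum_comm]
        refine Finset.sum_congr rfl fun u _ => Finset.sum_congr rfl fun k _ => ?_
        ring
      rw [h2, ← Finset.sum_add_distrib, hW, Finset.mul_sum]
      refine Finset.sum_congr rfl fun k _ => ?_
      ring
    have hpos : (0 : ℝ) ≤ ((d : ℝ) + 1) ^ 2 * (4 * B) ^ d := by positivity
    have h3 : |∑ k, Sk k * (π ^ (2 * W) * ((Yv k : ℝ) / e) -
        ∑ i, ∑ u ∈ range (4 * W), aeval α (b k i u) * z i * π ^ u)| ≤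
        ((d : ℝ) + 1) ^ 2 * (4 * B) ^ d * (m * Y) * A ^ 2 * |π| ^ (4 * W) := by
      refine (Finset.abs_sum_le_sum_abs _ _).trans ?_
      refine (Finset.sum_le_card_nsmul _ _
        ((((d : ℝ) + 1) ^ 2 * (4 * B) ^ d * Y) * (A * |π| ^ (4 * W))) fun k _ => ?_).trans ?_
      · rw [abs_mul]
        exact mul_le_mul (hSkb k) (h.app k) (abs_nonneg _) (by positivity)
      · rw [Finset.card_univ, Fintype.card_fin, nsmul_eq_mul]
        have h4 : A ≤ A ^ 2 := by nlinarith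
        calc (m : ℝ) * ((((d : ℝ) + 1) ^ 2 * (4 * B) ^ d * Y) * (A * |π| ^ (4 * W)))
            = (((d : ℝ) + 1) ^ 2 * (4 * B) ^ d * (m * Y) * |π| ^ (4 * W)) * A := by ring
          _ ≤ (((d : ℝ) + 1) ^ 2 * (4 * B) ^ d * (m * Y) * |π| ^ (4 * W)) * A ^ 2 :=
              mul_le_mul_of_nonneg_left h4 (by positivity)
          _ = _ := by ring
    have h5 : |∑ i, ∑ u ∈ range (4 * W), z i * π ^ u * Gu i u| ≤
        ((d : ℝ) + 1) ^ 2 * (4 * B) ^ d * (m * Y) * A ^ 2 *
          ∑ _i : Fin s, ∑ u ∈ range (4 * W), |π| ^ u * |c - α| ^ (v u - b0) := by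
      refine (Finset.abs_sum_le_sum_abs _ _).trans ?_
      rw [Finset.mul_sum]
      refine Finset.sum_le_sum fun i _ => ?_
      refine (Finset.abs_sum_le_sum_abs _ _).trans ?_
      rw [Finset.mul_sum]
      refine Finset.sum_le_sum fun u hu => ?_
      rw [Finset.mem_range] at hu
      rw [abs_mul, abs_mul, abs_pow]
      calc |z i| * |π| ^ u * |Gu i u| ≤ A * |π| ^ u *
            (((d : ℝ) + 1) ^ 2 * (4 * B) ^ d * (m * (Y * A)) * |c - α| ^ (v u - b0)) :=
            mul_le_mul (mul_le_mul_of_nonneg_right (h.zA i) (by positivity)) (hGb i u hu)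
              (abs_nonneg _) (by positivity)
        _ = _ := by ring
    rw [h1]
    refine (abs_add_le _ _).trans ?_
    refine (add_le_add h3 h5).trans (le_of_eq ?_)
    ring
  calc |π| ^ (2 * W) ≤ |π| ^ (2 * W) * |(Z : ℝ)| := le_mul_of_one_le_right (by positivity) hZ1
    _ = e * (cw : ℝ) ^ d * |π ^ (2 * W) * Wv| := by
        rw [hZW, abs_mul, abs_mul, abs_mul, abs_pow, abs_pow, abs_of_pos he, abs_of_pos hcw]
        ring
    _ ≤ A * B ^ d * (((d : ℝ) + 1) ^ 2 * (4 * B) ^ d * (m * Y) * A ^ 2 *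
          (|π| ^ (4 * W) + ∑ _i : Fin s, ∑ u ∈ range (4 * W),
            |π| ^ u * |c - α| ^ (v u - b0))) := by
        refine mul_le_mul ?_ hWb (abs_nonneg _) (by positivity)
        exact mul_le_mul h.eA (pow_le_pow_left₀ hcw.le h.cwB _) (by positivity) (by linarith)
    _ = _ := by
        rw [show (4 : ℝ) * B ^ 2 = 4 * B * B by ring, mul_pow (4 * B)]
        ring

/-- **Chapter [C].** -/
theorem core2 {r s m W : ℕ} {A B : ℝ} {p : ℤ[X]} {α : ℝ} {cu cw : ℤ} {π : ℝ} {z : Fin s → ℝ}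
    {b : Fin m → Fin s → ℕ → ℤ[X]} {e : ℤ} {Yv : Fin m → ℤ}
    (h : Dat2 r s m W A B p α cu cw π z b e Yv) (hπ : |π| * A ^ E0 r s m W ≤ 1)
    (hd : |α - (cu : ℝ) / cw| * (2 ^ r * B) ^ kk s W ≤ 1) : False := by
  have hm : 1 ≤ m := by
    obtain ⟨k, _⟩ := h.Y0
    exact Nat.one_le_of_lt (Nat.lt_of_le_of_lt (Nat.zero_le _) k.2)
  have hr := h.r2
  have hs := h.s1
  have hW := h.W1
  have hA := h.A2
  have hB := h.B1
  have hA0 : 0 < A := by linarith
  have hB0 : 0 < B := by linarith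
  set a := Real.log A with ha
  have ha2 : Real.log 2 ≤ a := Real.log_le_log (by norm_num) hA
  have hlog2 : (0.69 : ℝ) ≤ Real.log 2 := by
    have := Real.log_two_gt_d9
    linarith
  have ha0 : 0 < a := by linarith
  set L := Real.log (2 ^ r * B) with hL
  have hLe : L = r * Real.log 2 + Real.log B := by
    rw [hL, Real.log_mul (by positivity) hB0.ne', Real.log_pow]
  have hLa : L ≤ (r + 1) * a := by
    have h1 : Real.log B ≤ a := Real.log_le_log hB0 h.BA
    have h2 : (r : ℝ) * Real.log 2 ≤ r * a := mul_le_mul_of_nonneg_left ha2 (by positivity)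
    rw [hLe]
    linarith
  have hL1 : 1 ≤ L := by
    have h1 : 0 ≤ Real.log B := Real.log_nonneg hB
    have h2 : (2 : ℝ) ≤ r := by exact_mod_cast hr
    have h3 : 2 * Real.log 2 ≤ r * Real.log 2 := mul_le_mul_of_nonneg_right h2 (by linarith)
    rw [hLe]
    linarith
  have hL0 : 0 < L := by linarith
  have hk0 : (0 : ℝ) < kk s W := by
    have : 0 < kk s W := by
      unfold kk
      exact Nat.mul_pos (by omega) hs
    exact_mod_cast this
  set Λ := (kk s W : ℝ) * L with hΛ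
  have hΛ0 : 0 < Λ := by positivity
  have hexpL : (2 ^ r * B) = Real.exp L := by rw [hL, Real.exp_log (by positivity)]
  -- T
  have hπ0 := h.π0
  set T := -Real.log |π| with hT
  have hexpT : |π| = Real.exp (-T) := by rw [hT, neg_neg, Real.exp_log hπ0]
  have hTE : (E0 r s m W : ℝ) * a ≤ T := by
    have h1 : Real.log (|π| * A ^ E0 r s m W) ≤ 0 := Real.log_nonpos (by positivity) hπ
    rw [Real.log_mul hπ0.ne' (by positivity), Real.log_pow] at h1
    rw [hT]
    linarith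
  have hTΛ : Λ ≤ T := by
    have h1 : kk s W * (r + 1) ≤ E0 r s m W := by
      unfold E0
      refine Nat.mul_le_mul_left _ ?_
      have h2 : 1 ≤ c3 r s m W + W := by omega
      have h3 : 1 * (r + 1) ≤ (c3 r s m W + W) * (r + 1) := Nat.mul_le_mul_right _ h2
      omega
    have h2 : (kk s W * (r + 1) : ℝ) ≤ E0 r s m W := by exact_mod_cast h1
    calc Λ = kk s W * L := rfl
      _ ≤ kk s W * ((r + 1) * a) := mul_le_mul_of_nonneg_left hLa (by positivity)
      _ = (kk s W * (r + 1)) * a := by ring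
      _ ≤ E0 r s m W * a := mul_le_mul_of_nonneg_right h2 ha0.le
      _ ≤ T := hTE
  set q := ⌊T / Λ⌋₊ with hq
  have hq1 : 1 ≤ q := by
    rw [hq, Nat.one_le_floor_iff, le_div_iff₀ hΛ0, one_mul]
    exact hTΛ
  have hqT1 : q * Λ ≤ T := by
    have h1 : (q : ℝ) ≤ T / Λ := Nat.floor_le (div_nonneg (by linarith) hΛ0.le)
    rwa [le_div_iff₀ hΛ0] at h1
  have hqT2 : T < ((q : ℝ) + 1) * Λ := by
    have h1 : T / Λ < q + 1 := Nat.lt_floor_add_one _
    rwa [div_lt_iff₀ hΛ0] at h1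
  -- delta
  have hδe : |(cu : ℝ) / cw - α| ≤ Real.exp (-Λ) := by
    rw [abs_sub_comm, Real.exp_neg, ← one_div, le_div_iff₀ (Real.exp_pos _)]
    refine le_trans (le_of_eq ?_) hd
    rw [hexpL, ← Real.exp_nat_mul, hΛ]
  have hδ1 : |(cu : ℝ) / cw - α| ≤ 1 :=
    hδe.trans (Real.exp_le_one_iff.2 (by linarith))
  -- the auxiliary function
  set d := dd r m W q with hdd
  set Q : ℝ := (4 * (nn r s W q : ℝ) * A) ^ r * (2 ^ r * B) ^ d with hQ
  have hnn1 : (1 : ℝ) ≤ nn r s W q := by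
    have : 1 ≤ nn r s W q := by
      unfold nn
      have : 1 ≤ q * W := Nat.mul_pos hq1 hW
      omega
    exact_mod_cast this
  have hQ1 : 1 ≤ Q := by
    refine one_le_mul_of_one_le_of_one_le (one_le_pow₀ ?_) (one_le_pow₀ ?_)
    · nlinarith
    · exact one_le_mul_of_one_le_of_one_le (one_le_pow₀ (by norm_num)) hB
  set Y : ℕ := ⌈Q⌉₊ ^ kp s W with hY
  have hceil : Q ≤ (⌈Q⌉₊ : ℝ) := Nat.le_ceil _
  have hceil2 : (⌈Q⌉₊ : ℝ) ≤ 2 * Q := by
    have := Nat.ceil_lt_add_one (show 0 ≤ Q by linarith)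
    linarith
  have hceil0 : 0 < ⌈Q⌉₊ := Nat.ceil_pos.2 (by linarith)
  obtain ⟨y, hy, hv, b0, hb0, hne⟩ := cor1_2 h hq1 (Y := Y) (Nat.pow_pos hceil0) (by
    rw [hY]
    push_cast
    exact pow_le_pow_left₀ (by linarith) hceil _)
  have hsz := size2 h hδ1 (v := fun u => q * (4 * W - u)) hy hv hne
  -- the bound
  set K : ℝ := A ^ 3 * m * ((d : ℝ) + 1) ^ 2 * (4 * B ^ 2) ^ d * Y with hK
  have hm' : (0 : ℝ) < m := by exact_mod_cast hm
  have hY0 : (0 : ℝ) < Y := by
    have : 0 < Y := Nat.pow_pos hceil0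
    exact_mod_cast this
  have hK0 : 0 < K := by positivity
  set M : ℝ := Real.exp (-(W * Λ * ((q : ℝ) - 2))) with hM
  have hterm : |π| ^ (4 * W) + ∑ _i : Fin s, ∑ u ∈ range (4 * W),
      |π| ^ u * |(cu : ℝ) / cw - α| ^ (q * (4 * W - u) - b0) ≤
      |π| ^ (2 * W) * ((1 + 4 * s * W) * M) := by
    have h1 : |π| ^ (4 * W) ≤ |π| ^ (2 * W) * M := by
      rw [hexpT, ← Real.exp_nat_mul, ← Real.exp_nat_mul, hM, ← Real.exp_add]
      refine Real.exp_le_exp.2 ?_
      push_cast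
      have h2 : (0 : ℝ) ≤ W := by positivity
      have h3 : W * (q * Λ) ≤ W * T := mul_le_mul_of_nonneg_left hqT1 h2
      have h4 : (0 : ℝ) ≤ W * Λ := by positivity
      have h5 : (0 : ℝ) ≤ W * Λ * q := by positivity
      have h6 : W * Λ * ((q : ℝ) - 2) = W * (q * Λ) - 2 * (W * Λ) := by ring
      linarith
    have h2 : ∀ u ∈ range (4 * W), |π| ^ u * |(cu : ℝ) / cw - α| ^ (q * (4 * W - u) - b0) ≤
        |π| ^ (2 * W) * M := by
      intro u hu
      rw [Finset.mem_range] at hu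
      refine (mul_le_mul_of_nonneg_left (pow_le_pow_left₀ (abs_nonneg _) hδe _)
        (by positivity)).trans ?_
      rw [hexpT, ← Real.exp_nat_mul, ← Real.exp_nat_mul, ← Real.exp_nat_mul, hM, ← Real.exp_add,
        ← Real.exp_add]
      refine Real.exp_le_exp.2 ?_
      have h3 := expo hΛ0 hqT1 hqT2 hu hb0
      linarith
    calc |π| ^ (4 * W) + ∑ _i : Fin s, ∑ u ∈ range (4 * W),
          |π| ^ u * |(cu : ℝ) / cw - α| ^ (q * (4 * W - u) - b0)
        ≤ |π| ^ (2 * W) * M + ∑ _i : Fin s, ∑ _u ∈ range (4 * W), |π| ^ (2 * W) * M :=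
          add_le_add h1 (Finset.sum_le_sum fun _ _ => Finset.sum_le_sum h2)
      _ = |π| ^ (2 * W) * ((1 + 4 * s * W) * M) := by
          rw [Finset.sum_const, Finset.sum_const, Finset.card_univ, Fintype.card_fin,
            Finset.card_range, nsmul_eq_mul, nsmul_eq_mul]
          push_cast
          ring
  have hone : 1 ≤ K * ((1 + 4 * s * W) * M) := by
    have h1 : |π| ^ (2 * W) ≤ |π| ^ (2 * W) * (K * ((1 + 4 * s * W) * M)) := by
      refine hsz.trans ((mul_le_mul_of_nonneg_left hterm hK0.le).trans (le_of_eq ?_))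
      ring
    have h2 : 0 < |π| ^ (2 * W) := by positivity
    have h3 : |π| ^ (2 * W) * 1 ≤ |π| ^ (2 * W) * (K * ((1 + 4 * s * W) * M)) := by
      rw [mul_one]
      exact h1
    exact le_of_mul_le_mul_left h3 h2
  have hlog : 0 ≤ Real.log K + Real.log (1 + 4 * s * W) + -(W * Λ * ((q : ℝ) - 2)) := by
    have h1 := Real.log_nonneg hone
    rw [Real.log_mul hK0.ne' (by positivity), Real.log_mul (by positivity) (Real.exp_pos _).ne',
      Real.log_exp] at h1
    linarith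
  -- logarithm of K
  have hlY : Real.log Y ≤ kp s W *
      (Real.log 2 + (r * (Real.log (4 * nn r s W q) + a) + d * L)) := by
    have h1 : Real.log Y = kp s W * Real.log (⌈Q⌉₊ : ℝ) := by
      rw [hY]
      push_cast
      rw [Real.log_pow]
    have h2 : Real.log (⌈Q⌉₊ : ℝ) ≤ Real.log 2 + Real.log Q := by
      rw [← Real.log_mul (by norm_num) (by linarith)]
      exact Real.log_le_log (by exact_mod_cast hceil0) hceil2
    have h3 : Real.log Q = r * (Real.log (4 * nn r s W q) + a) + d * L := by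
      rw [hQ, Real.log_mul (by positivity) (by positivity), Real.log_pow, Real.log_pow,
        Real.log_mul (by positivity) hA0.ne']
    rw [h1, ← h3]
    exact mul_le_mul_of_nonneg_left h2 (by positivity)
  have hl4 : Real.log (4 * B ^ 2) ≤ 2 * L := by
    have h1 : 4 * B ^ 2 ≤ (2 ^ r * B) ^ 2 := by
      rw [mul_pow]
      refine mul_le_mul_of_nonneg_right ?_ (by positivity)
      have h2 : (2 : ℝ) ≤ 2 ^ r := by
        calc (2 : ℝ) = 2 ^ 1 := by norm_num
          _ ≤ 2 ^ r := pow_le_pow_right₀ (by norm_num) (by omega)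
      nlinarith
    refine (Real.log_le_log (by positivity) h1).trans (le_of_eq ?_)
    rw [Real.log_pow, hL]
    norm_num
  have hlK : Real.log K = 3 * a + Real.log m + 2 * Real.log ((d : ℝ) + 1) +
      d * Real.log (4 * B ^ 2) + Real.log Y := by
    rw [hK, Real.log_mul (by positivity) (by positivity),
      Real.log_mul (by positivity) (by positivity), Real.log_mul (by positivity) (by positivity),
      Real.log_mul (by positivity) (by positivity), Real.log_pow A 3,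
      Real.log_pow ((d : ℝ) + 1) 2, Real.log_pow (4 * B ^ 2) d]
    push_cast
    ring
  have hdl : (d : ℝ) * Real.log (4 * B ^ 2) ≤ d * (2 * L) :=
    mul_le_mul_of_nonneg_left hl4 (by positivity)
  refine num_ineq hr hs hm hW hq1 ha2 hLa hL1 hTE (by rw [← hΛ]; exact hqT2) ?_
  rw [← hΛ]
  rw [hlK] at hlog
  linarith

end Pool.Agent.H77.SA
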